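import Mathlib
import Pool.Agent.D0H21.CC.Cnt
import Pool.Agent.D0H61.CP.Stm

/-!
# CP, module CNT2, part 1: Fourier identities with three sums over primes, the main term
-/

set_option autoImplicit false
set_option linter.all false

open Filter Topology MeasureTheory Finset Pool.Agent.D0H61.CC Pool.Agent.D0H21.CC

namespace Pool.Agent.D0H87.CP

section four

variable (K : ℝ → ℝ) (hKc : Continuous K) (hKi : Integrable K) (hK0 : ∀ ξ, 0 ≤ K ξ)
  (hinv : ∀ x : ℝ, ((tri x : ℝ) : ℂ) = ∫ ξ, (K ξ : ℂ) * ex (2 * Real.pi * x * ξ))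

include hKc hKi hK0 hinv in
theorem four_sum3 (G P Q : Finset ℕ) (A a b c : ℝ) :
    ((∑ n ∈ G, ∑ p ∈ P, ∑ r ∈ Q, Real.log n * (Real.log p * Real.log r) *
      tri (A + b * Real.log p + a * Real.log n + c * Real.log r) : ℝ) : ℂ) =
    ∫ ξ, (K ξ : ℂ) * (ex (2 * Real.pi * A * ξ) * ps G (2 * Real.pi * a * ξ) *
      ps P (2 * Real.pi * b * ξ) * ps Q (2 * Real.pi * c * ξ)) := by
  have hI : ∀ x : ℝ, Integrable fun ξ => (K ξ : ℂ) * ex (2 * Real.pi * x * ξ) := fun x =>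
    int_of_bd K hKc hKi hK0 _ (ex_cont.comp (by fun_prop)) 1 fun ξ => (ex_norm _).le
  have e : ∀ ξ : ℝ, (K ξ : ℂ) * (ex (2 * Real.pi * A * ξ) * ps G (2 * Real.pi * a * ξ) *
      ps P (2 * Real.pi * b * ξ) * ps Q (2 * Real.pi * c * ξ)) =
      ∑ n ∈ G, ∑ p ∈ P, ∑ r ∈ Q, ((Real.log n * (Real.log p * Real.log r) : ℝ) : ℂ) *
        ((K ξ : ℂ) * ex (2 * Real.pi * (A + b * Real.log p + a * Real.log n + c * Real.log r) * ξ)) := by
    intro ξ
    unfold ps
    rw [triple]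
    refine Finset.sum_congr rfl fun n _ => ?_
    refine Finset.sum_congr rfl fun p _ => ?_
    refine Finset.sum_congr rfl fun r _ => ?_
    have e1 : 2 * Real.pi * (A + b * Real.log p + a * Real.log n + c * Real.log r) * ξ =
        2 * Real.pi * A * ξ + 2 * Real.pi * a * ξ * Real.log n +
        2 * Real.pi * b * ξ * Real.log p + 2 * Real.pi * c * ξ * Real.log r := by ring
    rw [e1, ex_add, ex_add, ex_add]
    push_cast
    ring
  rw [integral_congr_ae (ae_of_all _ e), integral_finset_sum _ fun n _ =>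
    integrable_finset_sum _ fun p _ => integrable_finset_sum _ fun r _ => (hI _).const_mul _]
  push_cast
  refine Finset.sum_congr rfl fun n _ => ?_
  rw [integral_finset_sum _ fun p _ => integrable_finset_sum _ fun r _ => (hI _).const_mul _]
  refine Finset.sum_congr rfl fun p _ => ?_
  rw [integral_finset_sum _ fun r _ => (hI _).const_mul _]
  refine Finset.sum_congr rfl fun r _ => ?_
  rw [integral_const_mul, ← hinv]

/-- Lebesgue measure on a box -/
noncomputable def box (x₁ x₂ y₁ y₂ z₁ z₂ : ℝ) : Measure (ℝ × ℝ × ℝ) :=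
  (volume.restrict (Set.Ioc x₁ x₂)).prod ((volume.restrict (Set.Ioc y₁ y₂)).prod (volume.restrict (Set.Ioc z₁ z₂)))

instance (x₁ x₂ y₁ y₂ z₁ z₂ : ℝ) : IsFiniteMeasure (box x₁ x₂ y₁ y₂ z₁ z₂) := by
  unfold box
  infer_instance

include hKc hKi hK0 hinv in
theorem four_int3 (x₁ x₂ y₁ y₂ z₁ z₂ A a b c : ℝ) (hx : x₁ ≤ x₂) (hy : y₁ ≤ y₂) (hz : z₁ ≤ z₂) :
    ∫ ξ, (K ξ : ℂ) * (ex (2 * Real.pi * A * ξ) * ii x₁ x₂ (2 * Real.pi * a * ξ) *
      ii y₁ y₂ (2 * Real.pi * b * ξ) * ii z₁ z₂ (2 * Real.pi * c * ξ)) =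
    ((∫ w, tri (A + b * Real.log w.2.1 + a * Real.log w.1 + c * Real.log w.2.2)
      ∂(box x₁ x₂ y₁ y₂ z₁ z₂) : ℝ) : ℂ) := by
  have hFm : Measurable fun w : ℝ × ℝ × ℝ =>
      A + b * Real.log w.2.1 + a * Real.log w.1 + c * Real.log w.2.2 := by
    fun_prop
  have e : ∀ ξ : ℝ, (K ξ : ℂ) * (ex (2 * Real.pi * A * ξ) * ii x₁ x₂ (2 * Real.pi * a * ξ) *
      ii y₁ y₂ (2 * Real.pi * b * ξ) * ii z₁ z₂ (2 * Real.pi * c * ξ)) =
      (K ξ : ℂ) * ∫ w, ex (2 * Real.pi *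
        (A + b * Real.log w.2.1 + a * Real.log w.1 + c * Real.log w.2.2) * ξ) ∂(box x₁ x₂ y₁ y₂ z₁ z₂) := by
    intro ξ
    have e1 : ii y₁ y₂ (2 * Real.pi * b * ξ) * ii z₁ z₂ (2 * Real.pi * c * ξ) =
        ∫ w, ex (2 * Real.pi * b * ξ * Real.log w.1) * ex (2 * Real.pi * c * ξ * Real.log w.2)
          ∂((volume.restrict (Set.Ioc y₁ y₂)).prod (volume.restrict (Set.Ioc z₁ z₂)) : Measure (ℝ × ℝ)) := by
      unfold ii
      rw [intervalIntegral.integral_of_le hy, intervalIntegral.integral_of_le hz]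
      exact (integral_prod_mul (fun x => ex (2 * Real.pi * b * ξ * Real.log x))
        (fun x => ex (2 * Real.pi * c * ξ * Real.log x))).symm
    have e2 : ii x₁ x₂ (2 * Real.pi * a * ξ) * (ii y₁ y₂ (2 * Real.pi * b * ξ) * ii z₁ z₂ (2 * Real.pi * c * ξ)) =
        ∫ w, ex (2 * Real.pi * a * ξ * Real.log w.1) *
          (ex (2 * Real.pi * b * ξ * Real.log w.2.1) * ex (2 * Real.pi * c * ξ * Real.log w.2.2))
          ∂(box x₁ x₂ y₁ y₂ z₁ z₂) := by
      rw [e1]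
      unfold ii box
      rw [intervalIntegral.integral_of_le hx]
      exact (integral_prod_mul (fun x => ex (2 * Real.pi * a * ξ * Real.log x))
        (fun w : ℝ × ℝ => ex (2 * Real.pi * b * ξ * Real.log w.1) * ex (2 * Real.pi * c * ξ * Real.log w.2))).symm
    rw [mul_assoc (ex _ * ii x₁ x₂ _), mul_assoc (ex _), e2, ← integral_const_mul]
    congr 1
    refine integral_congr_ae (ae_of_all _ fun w => ?_)
    simp only
    have e3 : 2 * Real.pi * (A + b * Real.log w.2.1 + a * Real.log w.1 + c * Real.log w.2.2) * ξ =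
        2 * Real.pi * A * ξ + 2 * Real.pi * a * ξ * Real.log w.1 +
        2 * Real.pi * b * ξ * Real.log w.2.1 + 2 * Real.pi * c * ξ * Real.log w.2.2 := by ring
    rw [e3, ex_add, ex_add, ex_add]
    ring
  have hf := fub K hKc hKi hK0 hinv (box x₁ x₂ y₁ y₂ z₁ z₂) _ hFm
  rw [integral_congr_ae (ae_of_all _ e), hf.2]
  exact integral_ofReal

end four

theorem M_lower3 (κ ψ φ l x₁ x₂ y₁ y₂ z₁ z₂ : ℝ) (hl : 1 ≤ l) (hx : x₁ ≤ x₂) (hy : y₁ ≤ y₂) (hz : 0 < z₁)
    (hX : ∀ x ∈ Set.Ioc x₁ x₂, ∀ y ∈ Set.Ioc y₁ y₂,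
      2 * z₁ ≤ Real.exp (φ + κ * Real.log y + ψ * Real.log x) ∧
      Real.exp (φ + κ * Real.log y + ψ * Real.log x) ≤ z₂) :
    (x₂ - x₁) * ((y₂ - y₁) * (z₁ / (4 * l))) ≤
      ∫ w, tri (l * φ + l * κ * Real.log w.2.1 + l * ψ * Real.log w.1 + (-l) * Real.log w.2.2)
      ∂(box x₁ x₂ y₁ y₂ z₁ z₂) := by
  have hF : Measurable fun w : ℝ × ℝ × ℝ =>
      tri (l * φ + l * κ * Real.log w.2.1 + l * ψ * Real.log w.1 + (-l) * Real.log w.2.2) :=
    tri_cont.measurable.comp (by fun_prop)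
  have hint : Integrable (fun w : ℝ × ℝ × ℝ =>
      tri (l * φ + l * κ * Real.log w.2.1 + l * ψ * Real.log w.1 + (-l) * Real.log w.2.2))
      (box x₁ x₂ y₁ y₂ z₁ z₂) := by
    refine (integrable_const (1 : ℝ)).mono' hF.aestronglyMeasurable (ae_of_all _ fun w => ?_)
    rw [Real.norm_of_nonneg (tri_nonneg _)]
    exact tri_le_one _
  unfold box at hint ⊢
  rw [integral_prod _ hint]
  have hc : (x₂ - x₁) * ((y₂ - y₁) * (z₁ / (4 * l))) =
      ∫ x in Set.Ioc x₁ x₂, (y₂ - y₁) * (z₁ / (4 * l)) := by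
    rw [setIntegral_const, smul_eq_mul, Measure.real, Real.volume_Ioc, ENNReal.toReal_ofReal (by linarith)]
  rw [hc]
  refine setIntegral_mono_on ?_ hint.integral_prod_left measurableSet_Ioc fun x hxx => ?_
  · exact integrable_const _
  have h1 := M_lower κ (φ + ψ * Real.log x) l y₁ y₂ z₁ z₂ 1 hl hy hz fun y hyy => by
    have := hX x hxx y hyy
    rw [Nat.cast_one, Real.log_one, mul_zero, add_zero]
    have e : φ + ψ * Real.log x + κ * Real.log y = φ + κ * Real.log y + ψ * Real.log x := by ring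
    rw [e]
    exact this
  refine h1.trans (le_of_eq ?_)
  refine integral_congr_ae (ae_of_all _ fun w => ?_)
  simp only
  rw [Nat.cast_one, Real.log_one, mul_zero, add_zero]
  congr 1
  ring

end Pool.Agent.D0H87.CP
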