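import Mathlib
import Pool.Agent.D0H21.CC.Cnt

/-!
# CP, module CNT2, part 2: numerical lemmas
-/

set_option autoImplicit false
set_option linter.all false

open Filter Topology MeasureTheory Finset Pool.Agent.D0H61.CC Pool.Agent.D0H21.CC

namespace Pool.Agent.D0H87.CP

theorem freq2 (m N ξ : ℝ) (h1 : 2 * Real.pi * |m| ≤ N ^ 2) (hξ : |ξ| ≤ N ^ 10) :
    |2 * Real.pi * m * ξ| ≤ N ^ 12 := by
  rw [abs_mul, abs_mul, abs_of_pos (by positivity : 0 < 2 * Real.pi)]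
  calc 2 * Real.pi * |m| * |ξ| ≤ N ^ 2 * N ^ 10 := mul_le_mul h1 hξ (abs_nonneg _) (by positivity)
    _ = _ := by ring

/-- error of the first step -/
theorem num1 (M N Λ' Λ h cP cR cI AP AR AI : ℝ) (hM : 1 ≤ M) (hMN : M ≤ N) (hΛ' : 1 ≤ Λ') (hΛ'M : Λ' ≤ M)
    (hh : 0 ≤ h) (hΛ : Λ = h * Λ')
    (hcP : 0 ≤ cP) (hcR : 0 ≤ cR) (hcI : 0 ≤ cI) (hP : AP ≤ cP * N * Λ ^ 2) (hR : AR ≤ cR * N * Λ ^ 2)
    (hI : AI ≤ cI * (M ^ 2 / N)) :
    M / Λ' ^ 4 * (1 * AP + (AR + AI) / 1) + 4 * Real.pi ≤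
      ((cP + cR) * h ^ 2 + cI + 4 * Real.pi) * (M * N / Λ') := by
  have hM0 : 0 < M := by linarith
  have hN0 : 0 < N := by linarith
  have hΛ0 : 0 < Λ' := by linarith
  have hpi := Real.pi_pos
  have h1 : M ^ 2 / N ≤ N := by
    rw [div_le_iff₀ hN0, ← sq]
    exact pow_le_pow_left₀ hM0.le hMN 2
  have h2 : AI ≤ cI * N := hI.trans (mul_le_mul_of_nonneg_left h1 hcI)
  have hq : 1 ≤ Λ' ^ 2 := one_le_pow₀ hΛ'
  have h3 : 1 * AP + (AR + AI) / 1 ≤ ((cP + cR) * h ^ 2 + cI) * (N * Λ' ^ 2) := by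
    rw [hΛ] at hP hR
    have h4 : cI * N ≤ cI * N * Λ' ^ 2 := le_mul_of_one_le_right (by positivity) hq
    calc 1 * AP + (AR + AI) / 1 = AP + AR + AI := by ring
      _ ≤ cP * N * (h * Λ') ^ 2 + cR * N * (h * Λ') ^ 2 + cI * N * Λ' ^ 2 := by linarith
      _ = _ := by ring
  have h5 : M / Λ' ^ 4 * (1 * AP + (AR + AI) / 1) ≤ ((cP + cR) * h ^ 2 + cI) * (M * N / Λ') := by
    calc M / Λ' ^ 4 * (1 * AP + (AR + AI) / 1) ≤ M / Λ' ^ 4 * (((cP + cR) * h ^ 2 + cI) * (N * Λ' ^ 2)) :=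
          mul_le_mul_of_nonneg_left h3 (by positivity)
      _ = ((cP + cR) * h ^ 2 + cI) * (M * N / Λ') * (1 / Λ') := by field_simp
      _ ≤ ((cP + cR) * h ^ 2 + cI) * (M * N / Λ') * 1 := by
        refine mul_le_mul_of_nonneg_left ?_ (by positivity)
        rw [div_le_one hΛ0]
        exact hΛ'
      _ = _ := by ring
  have h6 : 1 ≤ M * N / Λ' := by
    rw [le_div_iff₀ hΛ0, one_mul]
    nlinarith
  have h7 : 4 * Real.pi ≤ 4 * Real.pi * (M * N / Λ') := le_mul_of_one_le_right (by positivity) h6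
  calc _ ≤ ((cP + cR) * h ^ 2 + cI) * (M * N / Λ') + 4 * Real.pi * (M * N / Λ') := add_le_add h5 h7
    _ = _ := by ring

/-- error of the second step -/
theorem num2 (M N Λ' Λ cR cI cY AR AI AY : ℝ) (hM : 1 ≤ M) (hMN : M ≤ N) (hΛ' : 1 ≤ Λ') (hΛ'M : Λ' ≤ M)
    (hΛ : Λ' ≤ Λ) (hcR : 0 ≤ cR) (hcI : 0 ≤ cI) (hcY : 0 ≤ cY) (hR : AR ≤ cR * N * Λ ^ 2)
    (hI : AI ≤ cI * (M ^ 2 / N)) (hY : AY ≤ cY * N) :
    N / Λ ^ 4 * (N / M * AI + (AR + AY) / (N / M)) + 4 * Real.pi * N ≤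
      (cR + cI + cY + 4 * Real.pi) * (M * N / Λ') := by
  have hM0 : 0 < M := by linarith
  have hN0 : 0 < N := by linarith
  have hΛ0 : 0 < Λ' := by linarith
  have hΛ1 : 1 ≤ Λ := by linarith
  have hΛ2 : 0 < Λ := by linarith
  have hpi := Real.pi_pos
  have hq : 1 ≤ Λ ^ 2 := one_le_pow₀ hΛ1
  have h1 : N / M * AI ≤ cI * M * Λ ^ 2 := by
    calc N / M * AI ≤ N / M * (cI * (M ^ 2 / N)) := mul_le_mul_of_nonneg_left hI (by positivity)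
      _ = cI * M := by field_simp
      _ ≤ cI * M * Λ ^ 2 := le_mul_of_one_le_right (by positivity) hq
  have h2 : (AR + AY) / (N / M) ≤ (cR + cY) * M * Λ ^ 2 := by
    have h3 : AR + AY ≤ (cR + cY) * N * Λ ^ 2 := by
      have : cY * N ≤ cY * N * Λ ^ 2 := le_mul_of_one_le_right (by positivity) hq
      calc AR + AY ≤ cR * N * Λ ^ 2 + cY * N * Λ ^ 2 := by linarith
        _ = _ := by ring
    calc (AR + AY) / (N / M) ≤ ((cR + cY) * N * Λ ^ 2) / (N / M) :=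
          div_le_div_of_nonneg_right h3 (by positivity)
      _ = _ := by field_simp
  have h4 : N / Λ ^ 4 * (N / M * AI + (AR + AY) / (N / M)) ≤ (cR + cI + cY) * (M * N / Λ') := by
    calc N / Λ ^ 4 * (N / M * AI + (AR + AY) / (N / M)) ≤
        N / Λ ^ 4 * (cI * M * Λ ^ 2 + (cR + cY) * M * Λ ^ 2) :=
          mul_le_mul_of_nonneg_left (add_le_add h1 h2) (by positivity)
      _ = (cR + cI + cY) * (M * N / Λ) * (1 / Λ) := by
        field_simp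
        ring
      _ ≤ (cR + cI + cY) * (M * N / Λ') * 1 := by
        have h5 : M * N / Λ ≤ M * N / Λ' := div_le_div_of_nonneg_left (by positivity) hΛ0 hΛ
        have h6 : 1 / Λ ≤ 1 := by
          rw [div_le_one hΛ2]
          exact hΛ1
        have h7 : 0 ≤ cR + cI + cY := by positivity
        gcongr
      _ = _ := by ring
  have h8 : N ≤ M * N / Λ' := by
    rw [le_div_iff₀ hΛ0]
    nlinarith
  have h9 : 4 * Real.pi * N ≤ 4 * Real.pi * (M * N / Λ') := mul_le_mul_of_nonneg_left h8 (by positivity)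
  calc _ ≤ (cR + cI + cY) * (M * N / Λ') + 4 * Real.pi * (M * N / Λ') := add_le_add h4 h9
    _ = _ := by ring

/-- `S ≥ half of the main term` -/
theorem fin4 (R₃ δ y x T S e : ℝ) (hR₃ : 0 < R₃) (hT : x * (y * (δ / (4 * R₃))) ≤ T) (h : |S - T| ≤ e)
    (he : e ≤ x * (y * (δ / (8 * R₃)))) : x * (y * (δ / (8 * R₃))) ≤ S := fin3 R₃ δ y x T S e hR₃ hT h he

theorem fin5 (c R₃ ω η' δ M N Λ' x y : ℝ) (hR₃ : 0 < R₃) (hM : 0 ≤ M) (hN : 0 ≤ N) (hΛ : 0 < Λ') (hδ : 0 ≤ δ)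
    (hω : 0 ≤ ω) (hη : 0 ≤ η') (h1 : c * 8 * R₃ ≤ Λ' * (ω * (η' * δ))) (hx : ω * M ≤ x) (hy : η' * N ≤ y) :
    c * (M * N / Λ') ≤ x * (y * (δ / (8 * R₃))) := by
  have h2 : c ≤ Λ' * (ω * (η' * δ)) / (8 * R₃) := by
    rw [le_div_iff₀ (by positivity)]
    linarith
  have hx0 : 0 ≤ x := le_trans (by positivity) hx
  calc c * (M * N / Λ') ≤ Λ' * (ω * (η' * δ)) / (8 * R₃) * (M * N / Λ') :=
        mul_le_mul_of_nonneg_right h2 (by positivity)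
    _ = (ω * M) * ((η' * N) * (δ / (8 * R₃))) := by field_simp
    _ ≤ _ := by gcongr

theorem fin6 (E R₃ δ y x g Λ' Λ P : ℝ) (hR₃ : 0 < R₃) (hE : 0 < E) (hΛ' : 0 < Λ') (hΛ : 0 < Λ) (hδ : 0 ≤ δ)
    (hy : 0 ≤ y) (hg : g * Λ' ≤ 2 * x)
    (h : x * (y * (δ / (8 * R₃))) ≤ (2 * Λ') * ((2 * Λ) ^ 2 * (3 * E + 1) * P)) :
    1 / (128 * R₃ * (3 * E + 1)) * δ * y * g / Λ ^ 2 ≤ P := by
  rw [div_le_iff₀ (by positivity)]
  have h1 : g * Λ' / 2 * (y * (δ / (8 * R₃))) ≤ (2 * Λ') * ((2 * Λ) ^ 2 * (3 * E + 1) * P) := by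
    refine le_trans ?_ h
    refine mul_le_mul_of_nonneg_right ?_ (by positivity)
    linarith
  have h2 : Λ' * (g / 2 * (y * (δ / (8 * R₃)))) ≤ Λ' * (2 * ((2 * Λ) ^ 2 * (3 * E + 1) * P)) := by
    calc _ = g * Λ' / 2 * (y * (δ / (8 * R₃))) := by ring
      _ ≤ _ := h1
      _ = _ := by ring
  have h3 := le_of_mul_le_mul_left h2 hΛ'
  have e3 : 1 / (128 * R₃ * (3 * E + 1)) * δ * y * g = (g / 2 * (y * (δ / (8 * R₃)))) / (8 * (3 * E + 1)) := by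
    field_simp
    ring
  rw [e3, div_le_iff₀ (by positivity)]
  calc g / 2 * (y * (δ / (8 * R₃))) ≤ 2 * ((2 * Λ) ^ 2 * (3 * E + 1) * P) := h3
    _ = _ := by ring

end Pool.Agent.D0H87.CP
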