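import Mathlib
import Pool.Agent.D0H87.CP.Four
import Pool.Agent.D0H87.CP.Num

/-!
# CP, module CNT2: the number of pairs for powers of primes
-/

set_option autoImplicit false
set_option linter.all false

open Filter Topology MeasureTheory Finset Pool.Agent.D0H61.CC Pool.Agent.D0H21.CC Pool.Agent.D0H61.CP

namespace Pool.Agent.D0H87.CP

theorem ii_ms (K : ℝ → ℝ) (hKc : Continuous K) (hKi : Integrable K) (hK0 : ∀ ξ, 0 ≤ K ξ) (k : ℝ) (hk0 : 0 < k)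
    (hk : ∀ ξ, K ξ ≤ k) (y₁ y₂ m : ℝ) (hy₁ : 0 < y₁) (hy : y₁ ≤ y₂) (hm : m ≠ 0) :
    ∫ ξ, K ξ * ‖ii y₁ y₂ (2 * Real.pi * m * ξ)‖ ^ 2 ≤ k * (2 * y₂) ^ 2 / (2 * |m|) := by
  have hpi := Real.pi_pos
  have hma : 0 < |m| := abs_pos.2 hm
  obtain ⟨hlor, hlor'⟩ := int_lor (2 * Real.pi * |m|) (by positivity)
  have h1 : ∫ ξ, K ξ * ‖ii y₁ y₂ (2 * Real.pi * m * ξ)‖ ^ 2 ≤
      ∫ ξ, k * (2 * y₂) ^ 2 * (1 + (2 * Real.pi * |m| * ξ) ^ 2)⁻¹ := by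
    refine integral_mono (int_sq K hKc hKi hK0 _ ((ii_cont _ _ hy).comp (by fun_prop)) (y₂ - y₁)
      fun ξ => ii_bd _ _ _ hy) (hlor.const_mul _) fun ξ => ?_
    have h2 := ii_sq y₁ y₂ (2 * Real.pi * m * ξ) hy₁ hy
    have e : (2 * Real.pi * |m| * ξ) ^ 2 = (2 * Real.pi * m * ξ) ^ 2 := by
      have := sq_abs m
      calc (2 * Real.pi * |m| * ξ) ^ 2 = (2 * Real.pi * ξ) ^ 2 * |m| ^ 2 := by ring
        _ = (2 * Real.pi * ξ) ^ 2 * m ^ 2 := by rw [this]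
        _ = _ := by ring
    calc K ξ * ‖ii y₁ y₂ (2 * Real.pi * m * ξ)‖ ^ 2 ≤
        k * ((2 * y₂) ^ 2 * (1 + (2 * Real.pi * m * ξ) ^ 2)⁻¹) :=
          mul_le_mul (hk ξ) h2 (by positivity) hk0.le
      _ = k * (2 * y₂) ^ 2 * (1 + (2 * Real.pi * |m| * ξ) ^ 2)⁻¹ := by
        rw [e]
        exact (mul_assoc _ _ _).symm
  refine h1.trans (le_of_eq ?_)
  rw [integral_const_mul, hlor']
  field_simp

theorem ps_ms (hMS : S_MS) (K : ℝ → ℝ) (hKc : Continuous K) (hKi : Integrable K) (hK0 : ∀ ξ, 0 ≤ K ξ)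
    (hinv : ∀ x : ℝ, ((tri x : ℝ) : ℂ) = ∫ ξ, (K ξ : ℂ) * ex (2 * Real.pi * x * ξ))
    (P : Finset ℕ) (L Y m : ℝ) (hm : m ≠ 0) (hP : ∀ n ∈ P, 0 < n ∧ (n : ℝ) ≤ Y ∧ |Real.log n| ≤ L) :
    ∫ ξ, K ξ * ‖ps P (2 * Real.pi * m * ξ)‖ ^ 2 ≤ L ^ 2 * P.card * (2 * Y / |m| + 1) :=
  hMS K hKc hKi hK0 hinv P (fun n => Real.log n) L Y m hP hm

theorem prs_card (z₁ z₂ : ℝ) (hz : 0 ≤ z₂) : ((prs z₁ z₂).card : ℝ) ≤ z₂ := by
  have h1 : (prs z₁ z₂).card ≤ ⌊z₂⌋₊ := by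
    unfold prs
    refine (Finset.card_filter_le _ _).trans ?_
    rw [Nat.card_Icc]
    omega
  have h2 : (⌊z₂⌋₊ : ℝ) ≤ z₂ := Nat.floor_le hz
  have h3 : ((prs z₁ z₂).card : ℝ) ≤ ⌊z₂⌋₊ := by exact_mod_cast h1
  linarith

/-- the number of the primes from the sum of the logarithms -/
theorem card_log (Q : Finset ℕ) (x₁ x₂ Λ e : ℝ) (hx : x₁ ≤ x₂) (hQ : ∀ q ∈ Q, Λ ≤ Real.log q)
    (h : ‖ps Q 0 - ii x₁ x₂ 0‖ ≤ e) : Q.card * Λ ≤ (x₂ - x₁) + e := by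
  have h1 : ps Q 0 = ((∑ q ∈ Q, Real.log q : ℝ) : ℂ) := by
    unfold ps ex
    push_cast
    refine Finset.sum_congr rfl fun q _ => ?_
    simp
  have h2 : Q.card * Λ ≤ ∑ q ∈ Q, Real.log q := by
    rw [← nsmul_eq_mul]
    exact Finset.card_nsmul_le_sum _ _ _ hQ
  have h3 : ∑ q ∈ Q, Real.log q ≤ ‖ps Q 0‖ := by
    rw [h1, Complex.norm_real]
    exact le_abs_self _
  have h4 : ‖ps Q 0‖ ≤ ‖ps Q 0 - ii x₁ x₂ 0‖ + ‖ii x₁ x₂ 0‖ := by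
    have := norm_add_le (ps Q 0 - ii x₁ x₂ 0) (ii x₁ x₂ 0)
    rw [sub_add_cancel] at this
    exact this
  have h5 := ii_bd x₁ x₂ 0 hx
  linarith

theorem S_up (h : ℕ) (hh : 1 ≤ h) (κ φ δ y₁ y₂ z₁ z₂ L L' E : ℝ) (N : ℕ) (Q : Finset ℕ) (hN : 1 ≤ N) (hδ : 0 < δ)
    (hδ1 : δ ≤ 1) (hQ : ∀ q ∈ Q, Real.log q ≤ L') (hL'0 : 0 ≤ L')
    (hL : ∀ p ∈ prs y₁ y₂, Real.log p ≤ L) (hL' : ∀ r ∈ prs z₁ z₂, Real.log r ≤ L)
    (hX : ∀ q ∈ Q, ∀ p ∈ prs y₁ y₂, Real.exp (φ + κ * Real.log p + (1 - κ) * h * Real.log q) ≤ E * N) :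
    ∑ n ∈ Q, ∑ p ∈ prs y₁ y₂, ∑ r ∈ prs z₁ z₂, Real.log n * (Real.log p * Real.log r) *
      tri (N / δ * φ + N / δ * κ * Real.log p + N / δ * ((1 - κ) * h) * Real.log n + (-(N / δ)) * Real.log r) ≤
    L' * (L ^ 2 * (3 * E + 1) * (prsG κ φ δ y₁ y₂ N (Q.image (· ^ h))).card) := by
  have h1 := S_upper κ φ δ y₁ y₂ z₁ z₂ L E N (Q.image (· ^ h)) hN hδ hδ1 hL hL' (fun n hn p hp => by
    rw [mem_image] at hn
    obtain ⟨q, hq, rfl⟩ := hn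
    have := hX q hq p hp
    rw [Nat.cast_pow, Real.log_pow, ← mul_assoc]
    exact this)
  refine le_trans ?_ (mul_le_mul_of_nonneg_left h1 hL'0)
  rw [Finset.sum_image (fun a _ b _ hab => Nat.pow_left_injective (by omega) hab), Finset.mul_sum]
  refine Finset.sum_le_sum fun n hn => ?_
  have e : ∑ p ∈ prs y₁ y₂, ∑ r ∈ prs z₁ z₂, Real.log n * (Real.log p * Real.log r) *
      tri (N / δ * φ + N / δ * κ * Real.log p + N / δ * ((1 - κ) * h) * Real.log n + (-(N / δ)) * Real.log r) =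
      Real.log n * ∑ p ∈ prs y₁ y₂, ∑ r ∈ prs z₁ z₂, Real.log p * Real.log r *
        tri (N / δ * (φ + κ * Real.log p + (1 - κ) * Real.log ((n ^ h : ℕ) : ℝ) - Real.log r)) := by
    rw [Finset.mul_sum]
    refine Finset.sum_congr rfl fun p _ => ?_
    rw [Finset.mul_sum]
    refine Finset.sum_congr rfl fun r _ => ?_
    rw [Nat.cast_pow, Real.log_pow, mul_assoc]
    congr 3
    ring
  rw [e]
  refine mul_le_mul_of_nonneg_right (hQ n hn) ?_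
  refine Finset.sum_nonneg fun p _ => Finset.sum_nonneg fun r _ => ?_
  exact mul_nonneg (mul_nonneg (Real.log_natCast_nonneg p) (Real.log_natCast_nonneg r)) (tri_nonneg _)

theorem two_steps (K : ℝ → ℝ) (hKc : Continuous K) (hKi : Integrable K) (hK0 : ∀ ξ, 0 ≤ K ξ)
    (hK1 : ∀ ξ, ξ ^ 2 * K ξ ≤ 1)
    (hinv : ∀ x : ℝ, ((tri x : ℝ) : ℂ) = ∫ ξ, (K ξ : ℂ) * ex (2 * Real.pi * x * ξ))
    (Q P P' : Finset ℕ) (x₁ x₂ y₁ y₂ z₁ z₂ A a b c N ε₁ ε₂ s : ℝ) (hx : x₁ ≤ x₂) (hy : y₁ ≤ y₂) (hz : z₁ ≤ z₂)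
    (hN : 1 ≤ N) (hε₁ : 0 ≤ ε₁) (hε₂ : 0 ≤ ε₂) (hs : 0 < s)
    (hQb : ∀ τ, ‖ps Q τ‖ ≤ N ^ 2) (hPb : ∀ τ, ‖ps P τ‖ ≤ N ^ 2) (hP'b : ∀ τ, ‖ps P' τ‖ ≤ N ^ 2)
    (hxb : x₂ - x₁ ≤ N) (hyb : y₂ - y₁ ≤ N ^ 2) (hzb : z₂ - z₁ ≤ N ^ 2)
    (h1 : ∀ ξ : ℝ, |ξ| ≤ N ^ 10 → ‖ps Q (2 * Real.pi * a * ξ) - ii x₁ x₂ (2 * Real.pi * a * ξ)‖ ≤ ε₁)
    (h2 : ∀ ξ : ℝ, |ξ| ≤ N ^ 4 → ‖ps P (2 * Real.pi * b * ξ) - ii y₁ y₂ (2 * Real.pi * b * ξ)‖ ≤ ε₂)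
    (h3 : ∀ ξ : ℝ, |ξ| ≤ N ^ 4 → ‖ps P' (2 * Real.pi * c * ξ) - ii z₁ z₂ (2 * Real.pi * c * ξ)‖ ≤ ε₂) :
    |(∑ n ∈ Q, ∑ p ∈ P, ∑ r ∈ P', Real.log n * (Real.log p * Real.log r) *
      tri (A + b * Real.log p + a * Real.log n + c * Real.log r)) -
      ∫ w, tri (A + b * Real.log w.2.1 + a * Real.log w.1 + c * Real.log w.2.2) ∂(box x₁ x₂ y₁ y₂ z₁ z₂)| ≤
    (ε₁ * (1 * (∫ ξ, K ξ * ‖ps P (2 * Real.pi * b * ξ)‖ ^ 2) +
      ((∫ ξ, K ξ * ‖ps P' (2 * Real.pi * c * ξ)‖ ^ 2) + ∫ ξ, K ξ * ‖ii x₁ x₂ (2 * Real.pi * a * ξ)‖ ^ 2) / 1) +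
      4 * Real.pi) +
    (ε₂ * (s * (∫ ξ, K ξ * ‖ii x₁ x₂ (2 * Real.pi * a * ξ)‖ ^ 2) +
      ((∫ ξ, K ξ * ‖ps P' (2 * Real.pi * c * ξ)‖ ^ 2) + ∫ ξ, K ξ * ‖ii y₁ y₂ (2 * Real.pi * b * ξ)‖ ^ 2) / s) +
      4 * Real.pi * N) := by
  have hN0 : 0 < N := by linarith
  have hN2 : N ≤ N ^ 2 := by nlinarith
  have hN4 : N ^ 2 ≤ (N ^ 2) ^ 2 := by
    have : 1 ≤ N ^ 2 := one_le_pow₀ hN
    nlinarith
  have g1 := err_gen K hKc hKi hK0 hK1 (fun ξ => ex (2 * Real.pi * A * ξ))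
    (fun ξ => ps P (2 * Real.pi * b * ξ)) (fun ξ => ps Q (2 * Real.pi * a * ξ))
    (fun ξ => ps P' (2 * Real.pi * c * ξ)) (fun ξ => ii x₁ x₂ (2 * Real.pi * a * ξ))
    (fun ξ => ps P' (2 * Real.pi * c * ξ))
    (ex_cont.comp (by fun_prop)) ((ps_cont _).comp (by fun_prop)) ((ps_cont _).comp (by fun_prop))
    ((ps_cont _).comp (by fun_prop)) ((ii_cont _ _ hx).comp (by fun_prop)) ((ps_cont _).comp (by fun_prop))
    (N ^ 2) (N ^ 10) ε₁ 1 (by positivity) hε₁ one_pos (fun ξ => (ex_norm _).le) (fun ξ => hPb _)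
    (fun ξ => (hQb _).trans hN4) (fun ξ => (hP'b _).trans hN4)
    (fun ξ => (ii_bd _ _ _ hx).trans (hxb.trans (hN2.trans hN4))) (fun ξ => (hP'b _).trans hN4) h1
    (fun ξ _ => by
      rw [sub_self, norm_zero]
      exact hε₁)
  have g2 := err_gen K hKc hKi hK0 hK1 (fun ξ => ex (2 * Real.pi * A * ξ))
    (fun ξ => ii x₁ x₂ (2 * Real.pi * a * ξ)) (fun ξ => ps P (2 * Real.pi * b * ξ))
    (fun ξ => ps P' (2 * Real.pi * c * ξ)) (fun ξ => ii y₁ y₂ (2 * Real.pi * b * ξ))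
    (fun ξ => ii z₁ z₂ (2 * Real.pi * c * ξ))
    (ex_cont.comp (by fun_prop)) ((ii_cont _ _ hx).comp (by fun_prop)) ((ps_cont _).comp (by fun_prop))
    ((ps_cont _).comp (by fun_prop)) ((ii_cont _ _ hy).comp (by fun_prop)) ((ii_cont _ _ hz).comp (by fun_prop))
    N (N ^ 4) ε₂ s (by positivity) hε₂ hs (fun ξ => (ex_norm _).le)
    (fun ξ => (ii_bd _ _ _ hx).trans hxb) (fun ξ => hPb _) (fun ξ => hP'b _)
    (fun ξ => (ii_bd _ _ _ hy).trans hyb) (fun ξ => (ii_bd _ _ _ hz).trans hzb) h2 h3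
  have e1 := four_sum3 K hKc hKi hK0 hinv Q P P' A a b c
  have e2 := four_int3 K hKc hKi hK0 hinv x₁ x₂ y₁ y₂ z₁ z₂ A a b c hx hy hz
  have t1 : 4 * (N ^ 2) ^ 5 * Real.pi / N ^ 10 = 4 * Real.pi := by
    field_simp
  have t2 : 4 * N ^ 5 * Real.pi / N ^ 4 = 4 * Real.pi * N := by
    field_simp
  rw [t1] at g1
  rw [t2] at g2
  have c1 : (∫ ξ, (K ξ : ℂ) * (ex (2 * Real.pi * A * ξ) * ps P (2 * Real.pi * b * ξ) *
      ps Q (2 * Real.pi * a * ξ) * ps P' (2 * Real.pi * c * ξ))) =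
      ∫ ξ, (K ξ : ℂ) * (ex (2 * Real.pi * A * ξ) * ps Q (2 * Real.pi * a * ξ) *
      ps P (2 * Real.pi * b * ξ) * ps P' (2 * Real.pi * c * ξ)) :=
    integral_congr_ae (ae_of_all _ fun ξ => by ring)
  have c2 : (∫ ξ, (K ξ : ℂ) * (ex (2 * Real.pi * A * ξ) * ps P (2 * Real.pi * b * ξ) *
      ii x₁ x₂ (2 * Real.pi * a * ξ) * ps P' (2 * Real.pi * c * ξ))) =
      ∫ ξ, (K ξ : ℂ) * (ex (2 * Real.pi * A * ξ) * ii x₁ x₂ (2 * Real.pi * a * ξ) *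
      ps P (2 * Real.pi * b * ξ) * ps P' (2 * Real.pi * c * ξ)) :=
    integral_congr_ae (ae_of_all _ fun ξ => by ring)
  simp only [c1, c2, ← e1] at g1
  simp only [e2] at g2
  rw [← Real.norm_eq_abs, ← Complex.norm_real, Complex.ofReal_sub]
  refine (norm_sub_le_norm_sub_add_norm_sub _ _ _).trans (add_le_add g1 g2)

theorem abs3 (κ φ B R Λ lx ly ψ : ℝ) (h : ℝ) (hκ : ψ = (1 - κ) * h) (hB : B = R + |κ| * R + |1 - κ|) (hφ : |φ| ≤ R)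
    (hy : |ly - Λ| ≤ R) (hx : |h * lx - Λ| ≤ 1) :
    |φ + κ * ly + ψ * lx - Λ| ≤ B := by
  have e : φ + κ * ly + ψ * lx - Λ = φ + κ * (ly - Λ) + (1 - κ) * (h * lx - Λ) := by
    rw [hκ]
    ring
  rw [e]
  refine (abs_add_three _ _ _).trans ?_
  rw [abs_mul, abs_mul, hB]
  have h1 : |κ| * |ly - Λ| ≤ |κ| * R := mul_le_mul_of_nonneg_left hy (abs_nonneg _)
  have h2 : |1 - κ| * |h * lx - Λ| ≤ |1 - κ| * 1 := mul_le_mul_of_nonneg_left hx (abs_nonneg _)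
  linarith

theorem om (h : ℕ) (hh : 1 ≤ h) (η : ℝ) (hη : 0 < η) (hη1 : η ≤ 1) :
    1 < (1 + η) ^ (1 / h : ℝ) ∧ (1 + η) ^ (1 / h : ℝ) ≤ 2 ∧ h * Real.log ((1 + η) ^ (1 / h : ℝ)) ≤ 1 := by
  have hh0 : (1 : ℝ) ≤ h := by exact_mod_cast hh
  have hh1 : (0 : ℝ) < h := by linarith
  refine ⟨Real.one_lt_rpow (by linarith) (by positivity), ?_, ?_⟩
  · have h1 : (1 + η) ^ (1 / h : ℝ) ≤ (1 + η) ^ (1 : ℝ) := by
      apply Real.rpow_le_rpow_of_exponent_le (by linarith)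
      rw [div_le_one hh1]
      exact hh0
    rw [Real.rpow_one] at h1
    linarith
  · rw [Real.log_rpow (by linarith), ← mul_assoc, mul_one_div_cancel hh1.ne', one_mul]
    have := Real.log_le_sub_one_of_pos (x := 1 + η) (by linarith)
    linarith

theorem t_CNT2 (hTRI : S_TRI) (hMS : S_MS) (hZP : S_ZP) : S_CNT2 := by
  obtain ⟨K, hKc, hKi, hK0, hK1, hinv⟩ := hTRI
  intro h hh κ hκ0 hκ1 R hR
  obtain ⟨kmax, hk0, hk⟩ := kmax_ex K hKc hK1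
  obtain ⟨B, hB⟩ : ∃ B : ℝ, B = R + |κ| * R + |1 - κ| := ⟨_, rfl⟩
  obtain ⟨E, hE⟩ : ∃ E : ℝ, E = Real.exp B := ⟨_, rfl⟩
  obtain ⟨R₃, hR₃⟩ : ∃ R₃ : ℝ, R₃ = 2 * E := ⟨_, rfl⟩
  have hB1 : R ≤ B := by
    rw [hB]
    have := mul_nonneg (abs_nonneg κ) (by linarith : 0 ≤ R)
    have := abs_nonneg (1 - κ)
    linarith
  have hE1 : B + 1 ≤ E := by
    rw [hE]
    exact Real.add_one_le_exp B
  have hE0 : 0 < E := by rw [hE]; exact Real.exp_pos _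
  have hR₃R : R ≤ R₃ := by rw [hR₃]; linarith
  have hR₃1 : 1 ≤ R₃ := hR.trans hR₃R
  have hR₃2 : 2 ≤ R₃ := by rw [hR₃]; linarith
  have hR₃0 : 0 < R₃ := by linarith
  have hR0 : 0 < R := by linarith
  have hκa : 0 < |κ| := abs_pos.2 hκ0
  have hκ1' : 1 - κ ≠ 0 := fun h => hκ1 (by linarith)
  have hpi := Real.pi_pos
  have hh0 : (1 : ℝ) ≤ h := by exact_mod_cast hh
  have hh1 : (0 : ℝ) < h := by linarith
  obtain ⟨ψ, hψ⟩ : ∃ ψ : ℝ, ψ = (1 - κ) * h := ⟨_, rfl⟩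
  have hψ0 : ψ ≠ 0 := by
    rw [hψ]
    exact mul_ne_zero hκ1' hh1.ne'
  have hψa : 0 < |ψ| := abs_pos.2 hψ0
  refine ⟨1 / (128 * R₃ * (3 * E + 1)), by positivity, ?_⟩
  intro δ η η' hδ hδ1 hη hη1 hη'
  obtain ⟨om1, om2, om3⟩ := om h hh η hη hη1
  obtain ⟨w, hw⟩ : ∃ w : ℝ, w = (1 + η) ^ (1 / h : ℝ) := ⟨_, rfl⟩
  rw [← hw] at om1 om2 om3
  obtain ⟨ω, hω⟩ : ∃ ω : ℝ, ω = w - 1 := ⟨_, rfl⟩
  have hω0 : 0 < ω := by linarith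
  obtain ⟨cP, hcP⟩ : ∃ cP : ℝ, cP = 4 * R₃ * (2 * R₃ / |κ| + 1) := ⟨_, rfl⟩
  obtain ⟨cR, hcR⟩ : ∃ cR : ℝ, cR = 4 * R₃ * (2 * R₃ + 1) := ⟨_, rfl⟩
  obtain ⟨cI, hcI⟩ : ∃ cI : ℝ, cI = 8 * kmax / |ψ| := ⟨_, rfl⟩
  obtain ⟨cY, hcY⟩ : ∃ cY : ℝ, cY = 2 * kmax * R ^ 2 / |κ| := ⟨_, rfl⟩
  have hcP0 : 0 ≤ cP := by rw [hcP]; positivity
  have hcR0 : 0 ≤ cR := by rw [hcR]; positivity
  have hcI0 : 0 ≤ cI := by rw [hcI]; positivity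
  have hcY0 : 0 ≤ cY := by rw [hcY]; positivity
  obtain ⟨c, hc⟩ : ∃ c : ℝ, c = ((cP + cR) * (h : ℝ) ^ 2 + cI + 4 * Real.pi) + (cR + cI + cY + 4 * Real.pi) := ⟨_, rfl⟩
  have hc0 : 0 < c := by rw [hc]; positivity
  have E1 := ev_nat (eventually_ge_atTop R₃)
  have E2 := hZP R hR 6 4
  have E2' := hZP R₃ hR₃1 6 4
  have E3 := ev_nat (eventually_ge_atTop (2 * Real.pi * |κ| / δ))
  have E3' := ev_nat (eventually_ge_atTop (2 * Real.pi / δ))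
  have E3'' := ev_nat (eventually_ge_atTop (2 * Real.pi * |ψ| / δ))
  have E4 := ev_nat (ev_log (1 / (2 * R₃)) (by positivity) 1)
  have F1 := hZP 2 (by norm_num) (12 * h) 4
  have F2 := ev_nat (Real.tendsto_log_atTop.eventually (eventually_ge_atTop (1 : ℝ)))
  have F3 := ev_nat (Real.tendsto_log_atTop.eventually (eventually_ge_atTop (1 / ω)))
  have F4 := ev_nat (Real.tendsto_log_atTop.eventually (eventually_ge_atTop (c * 8 * R₃ / (ω * (η' * δ)))))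
  have E5 := ev_pow hh (F1.and (F2.and (F3.and (F4.and (eventually_ge_atTop 2)))))
  filter_upwards [E1, E2, E2', E3, E3', E3'', E4, E5, eventually_ge_atTop 1] with
    N hN1 hz hz' hN3 hN3' hN3'' hN4 hN5 hN0 G hG φ y₁ y₂ hφ hy₁ hy₁₂ hy₂
  obtain ⟨M, hNM, hGM⟩ := hG
  obtain ⟨hzM, hM1, hM2, hM3, hM4⟩ := hN5 M hNM
  have hMn : (2 : ℝ) ≤ M := by exact_mod_cast hM4
  have hMp : (0 : ℝ) < M := by linarith
  have hNn : (1 : ℝ) ≤ N := by exact_mod_cast hN0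
  have hNp : (0 : ℝ) < N := by linarith
  have hNMr : (N : ℝ) = (M : ℝ) ^ h := by
    rw [hNM]
    push_cast
    rfl
  have hMN : (M : ℝ) ≤ N := by
    rw [hNMr]
    exact le_self_pow₀ (by linarith) (by omega)
  obtain ⟨Λ', hΛ'⟩ : ∃ Λ' : ℝ, Λ' = Real.log M := ⟨_, rfl⟩
  obtain ⟨Λ, hΛ⟩ : ∃ Λ : ℝ, Λ = Real.log N := ⟨_, rfl⟩
  have hΛΛ : Λ = h * Λ' := by rw [hΛ, hΛ', hNMr, Real.log_pow]
  rw [← hΛ] at hz hz' hN4
  rw [← hΛ'] at hzM hM1 hM2 hM3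
  have hΛ'0 : 0 < Λ' := by linarith
  have hΛle : Λ' ≤ Λ := by
    rw [hΛΛ]
    exact le_mul_of_one_le_left hΛ'0.le hh0
  have hΛ0 : 0 < Λ := by linarith
  have hΛ'M : Λ' ≤ M := by
    rw [hΛ']
    have := Real.log_le_sub_one_of_pos hMp
    linarith
  obtain ⟨l, hl⟩ : ∃ l : ℝ, l = N / δ := ⟨_, rfl⟩
  obtain ⟨z₁, hz₁⟩ : ∃ z₁ : ℝ, z₁ = N / R₃ := ⟨_, rfl⟩
  obtain ⟨z₂, hz₂⟩ : ∃ z₂ : ℝ, z₂ = R₃ * N := ⟨_, rfl⟩
  obtain ⟨x₁, hx₁⟩ : ∃ x₁ : ℝ, x₁ = M := ⟨_, rfl⟩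
  obtain ⟨x₂, hx₂⟩ : ∃ x₂ : ℝ, x₂ = w * M := ⟨_, rfl⟩
  obtain ⟨Q, hQ⟩ : ∃ Q : Finset ℕ, Q = prs x₁ x₂ := ⟨_, rfl⟩
  have hGQ : G = Q.image (· ^ h) := by
    rw [hGM, hQ, hx₁, hx₂, hw]
    rfl
  have hlN : (N : ℝ) ≤ l := by
    rw [hl, le_div_iff₀ hδ]
    exact mul_le_of_le_one_right hNp.le hδ1
  have hl0 : 0 < l := by linarith
  have hl1 : 1 ≤ l := by linarith
  have hx12 : x₂ - x₁ = ω * M := by
    rw [hx₁, hx₂, hω]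
    ring
  have hx : x₁ ≤ x₂ := by
    have := mul_pos hω0 hMp
    linarith
  have hx₂M : x₂ ≤ 2 * M := by
    rw [hx₂]
    exact mul_le_mul_of_nonneg_right om2 hMp.le
  have hxN : x₂ - x₁ ≤ N := by
    rw [hx₁]
    linarith
  have hx₁0 : 0 < x₁ := by rw [hx₁]; exact hMp
  have hy₁0 : 0 < y₁ := lt_of_lt_of_le (by positivity) hy₁
  have hηN : 0 < η' * N := by positivity
  have hy : y₁ ≤ y₂ := by linarith
  have hz₁0 : 0 < z₁ := by rw [hz₁]; positivity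
  have hz₁₂ : z₁ ≤ z₂ := by
    rw [hz₁, hz₂, div_le_iff₀ hR₃0]
    exact aux1 R₃ N hR₃1 hNp.le
  have hz₂0 : 0 < z₂ := by linarith
  have hRN : R * N ≤ R₃ * N := mul_le_mul_of_nonneg_right hR₃R hNp.le
  -- logarithms
  have hlogRN : Real.log (R₃ * N) ≤ 2 * Λ := by
    rw [Real.log_mul hR₃0.ne' hNp.ne', ← hΛ]
    have := Real.log_le_log hR₃0 hN1
    rw [← hΛ] at this
    linarith
  have hQm : ∀ q ∈ Q, (0 : ℝ) < q ∧ x₁ < q ∧ (q : ℝ) ≤ x₂ := by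
    intro q hq
    rw [hQ, mem_prs] at hq
    exact ⟨by exact_mod_cast hq.1.1, hq.2.2, (Nat.le_floor_iff (by linarith)).1 hq.1.2⟩
  have hPm : ∀ p ∈ prs y₁ y₂, (0 : ℝ) < p ∧ y₁ < p ∧ (p : ℝ) ≤ y₂ := by
    intro p hp
    rw [mem_prs] at hp
    exact ⟨by exact_mod_cast hp.1.1, hp.2.2, (Nat.le_floor_iff (by linarith)).1 hp.1.2⟩
  have hRm : ∀ p ∈ prs z₁ z₂, (0 : ℝ) < p ∧ (p : ℝ) ≤ z₂ := by
    intro p hp
    rw [mem_prs] at hp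
    exact ⟨by exact_mod_cast hp.1.1, (Nat.le_floor_iff (by linarith)).1 hp.1.2⟩
  have hlogy : ∀ p ∈ prs y₁ y₂, Real.log p ≤ 2 * Λ := by
    intro p hp
    obtain ⟨hp0, _, hpy⟩ := hPm p hp
    refine (Real.log_le_log hp0 ?_).trans hlogRN
    exact hpy.trans (hy₂.trans hRN)
  have hlogz : ∀ p ∈ prs z₁ z₂, Real.log p ≤ 2 * Λ := by
    intro p hp
    obtain ⟨hp0, hpy⟩ := hRm p hp
    refine (Real.log_le_log hp0 ?_).trans hlogRN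
    rw [← hz₂]
    exact hpy
  have hlogq : ∀ q ∈ Q, Real.log q ≤ 2 * Λ' := by
    intro q hq
    obtain ⟨hp0, _, hpy⟩ := hQm q hq
    have h1 := Real.log_le_log hp0 (hpy.trans hx₂M)
    rw [Real.log_mul (by norm_num) hMp.ne', ← hΛ'] at h1
    have h2 := Real.log_le_log (by norm_num) hMn
    rw [← hΛ'] at h2
    linarith
  have hlogq' : ∀ q ∈ Q, Λ' ≤ Real.log q := by
    intro q hq
    obtain ⟨hp0, hpx, _⟩ := hQm q hq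
    rw [hΛ', ← hx₁]
    exact Real.log_le_log hx₁0 hpx.le
  -- the point `X`
  have hX : ∀ x : ℝ, x₁ < x → x ≤ x₂ → ∀ y : ℝ, y₁ < y → y ≤ y₂ →
      (N : ℝ) / E ≤ Real.exp (φ + κ * Real.log y + ψ * Real.log x) ∧
      Real.exp (φ + κ * Real.log y + ψ * Real.log x) ≤ E * N := by
    intro x hx1 hx2 y hy1 hy2
    have hx0 : 0 < x := hx₁0.trans hx1
    have hy0 : 0 < y := hy₁0.trans hy1
    have hly : |Real.log y - Λ| ≤ R := by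
      have hlR : Real.log R ≤ R := by
        have := Real.log_le_sub_one_of_pos hR0
        linarith
      rw [abs_le]
      constructor
      · have h1 : Real.log (N / R) ≤ Real.log y := Real.log_le_log (by positivity) (by linarith)
        rw [Real.log_div hNp.ne' hR0.ne', ← hΛ] at h1
        linarith
      · have h1 : Real.log y ≤ Real.log (R * N) := Real.log_le_log hy0 (by linarith)
        rw [Real.log_mul hR0.ne' hNp.ne', ← hΛ] at h1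
        linarith
    have hlx : |h * Real.log x - Λ| ≤ 1 := by
      have h1 : Real.log M ≤ Real.log x := Real.log_le_log hMp (by rw [← hx₁]; exact hx1.le)
      have h2 : Real.log x ≤ Real.log (w * M) := Real.log_le_log hx0 (by rw [← hx₂]; exact hx2)
      rw [Real.log_mul (by linarith) hMp.ne', ← hΛ'] at h2
      rw [← hΛ'] at h1
      have h3 := mul_le_mul_of_nonneg_left h1 hh1.le
      have h4 := mul_le_mul_of_nonneg_left h2 hh1.le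
      rw [mul_add] at h4
      rw [abs_le, hΛΛ]
      constructor
      · linarith
      · linarith
    have hd := abs3 κ φ B R Λ (Real.log x) (Real.log y) ψ h hψ hB hφ hly hlx
    rw [abs_le] at hd
    have hNe : (N : ℝ) = Real.exp Λ := by rw [hΛ, Real.exp_log hNp]
    constructor
    · rw [div_le_iff₀ hE0, hNe, hE, ← Real.exp_add]
      apply Real.exp_le_exp.2
      linarith
    · rw [hNe, hE, ← Real.exp_add]
      apply Real.exp_le_exp.2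
      linarith
  -- the sum and the main term
  obtain ⟨S, hS⟩ : ∃ S : ℝ, S = ∑ n ∈ Q, ∑ p ∈ prs y₁ y₂, ∑ r ∈ prs z₁ z₂, Real.log n * (Real.log p * Real.log r) *
      tri (l * φ + l * κ * Real.log p + l * ψ * Real.log n + (-l) * Real.log r) := ⟨_, rfl⟩
  obtain ⟨T, hT⟩ : ∃ T : ℝ, T = ∫ w, tri (l * φ + l * κ * Real.log w.2.1 + l * ψ * Real.log w.1 +
      (-l) * Real.log w.2.2) ∂(box x₁ x₂ y₁ y₂ z₁ z₂) := ⟨_, rfl⟩
  have hSu : S ≤ (2 * Λ') * ((2 * Λ) ^ 2 * (3 * E + 1) * (prsG κ φ δ y₁ y₂ N G).card) := by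
    rw [hS, hl, hψ, hGQ]
    refine S_up h hh κ φ δ y₁ y₂ z₁ z₂ (2 * Λ) (2 * Λ') E N Q hN0 hδ hδ1 hlogq (by positivity) hlogy hlogz ?_
    intro q hq p hp
    obtain ⟨_, g1, g2⟩ := hQm q hq
    obtain ⟨_, g3, g4⟩ := hPm p hp
    have := (hX q g1 g2 p g3 g4).2
    rw [hψ] at this
    exact this
  have hTl : (x₂ - x₁) * ((y₂ - y₁) * (δ / (4 * R₃))) ≤ T := by
    rw [hT]
    have h1 := M_lower3 κ ψ φ l x₁ x₂ y₁ y₂ z₁ z₂ hl1 hx hy hz₁0 fun x hxx y hyy => by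
      obtain ⟨h2, h3⟩ := hX x hxx.1 hxx.2 y hyy.1 hyy.2
      constructor
      · refine le_trans (le_of_eq ?_) h2
        rw [hz₁, hR₃]
        field_simp
      · refine h3.trans ?_
        rw [hz₂, hR₃]
        have := mul_pos hE0 hNp
        linarith
    refine le_trans (le_of_eq ?_) h1
    rw [hz₁, hl]
    field_simp
  -- sizes
  have hPc : ((prs y₁ y₂).card : ℝ) ≤ R₃ * N := (prs_card _ _ (by linarith)).trans (by linarith)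
  have hQc : (Q.card : ℝ) ≤ R₃ * N := by
    rw [hQ]
    refine (prs_card _ _ (by linarith)).trans (hx₂M.trans ?_)
    exact mul_le_mul hR₃2 hMN hMp.le hR₃0.le
  have hRc : ((prs z₁ z₂).card : ℝ) ≤ R₃ * N := by
    rw [← hz₂]
    exact prs_card _ _ hz₂0.le
  have hRN2 : R₃ * N * (2 * Λ) ≤ (N : ℝ) ^ 2 := by
    rw [pow_one] at hN4
    have h1 : 2 * R₃ * Λ ≤ N := by
      calc 2 * R₃ * Λ ≤ 2 * R₃ * (1 / (2 * R₃) * N) := mul_le_mul_of_nonneg_left hN4 (by positivity)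
        _ = N := by field_simp
    calc R₃ * N * (2 * Λ) = 2 * R₃ * Λ * N := by ring
      _ ≤ N * N := mul_le_mul_of_nonneg_right h1 hNp.le
      _ = (N : ℝ) ^ 2 := by ring
  have habs : ∀ p : ℕ, |Real.log p| = Real.log p := fun p => abs_of_nonneg (Real.log_natCast_nonneg p)
  have hb0 : ∀ τ : ℝ, ‖ps Q τ‖ ≤ (N : ℝ) ^ 2 := fun τ => by
    refine (ps_bd _ τ (2 * Λ) fun p hp => ?_).trans ?_
    · rw [habs]
      exact (hlogq p hp).trans (by linarith)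
    · exact (mul_le_mul_of_nonneg_right hQc (by positivity)).trans hRN2
  have hb1 : ∀ τ : ℝ, ‖ps (prs y₁ y₂) τ‖ ≤ (N : ℝ) ^ 2 := fun τ => by
    refine (ps_bd _ τ (2 * Λ) fun p hp => ?_).trans ?_
    · rw [habs]
      exact hlogy p hp
    · exact (mul_le_mul_of_nonneg_right hPc (by positivity)).trans hRN2
  have hb2 : ∀ τ : ℝ, ‖ps (prs z₁ z₂) τ‖ ≤ (N : ℝ) ^ 2 := fun τ => by
    refine (ps_bd _ τ (2 * Λ) fun p hp => ?_).trans ?_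
    · rw [habs]
      exact hlogz p hp
    · exact (mul_le_mul_of_nonneg_right hRc (by positivity)).trans hRN2
  have hRN3 : R₃ * N ≤ (N : ℝ) ^ 2 := by
    rw [sq]
    exact mul_le_mul_of_nonneg_right hN1 hNp.le
  have hb3 : y₂ - y₁ ≤ (N : ℝ) ^ 2 := by linarith
  have hb4 : z₂ - z₁ ≤ (N : ℝ) ^ 2 := by
    rw [← hz₂] at hRN3
    linarith
  have hfr0 : ∀ ξ : ℝ, |ξ| ≤ (N : ℝ) ^ 10 → |2 * Real.pi * (l * ψ) * ξ| ≤ (M : ℝ) ^ (12 * h) := by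
    intro ξ hξ
    have e0 : (M : ℝ) ^ (12 * h) = (N : ℝ) ^ 12 := by
      rw [hNMr, ← pow_mul, mul_comm]
    rw [e0]
    refine freq2 (l * ψ) N ξ ?_ hξ
    rw [abs_mul, abs_of_pos hl0]
    have e : 2 * Real.pi * (l * |ψ|) = 2 * Real.pi * |ψ| / δ * N := by
      rw [hl]
      ring
    rw [e, sq]
    exact mul_le_mul_of_nonneg_right hN3'' hNp.le
  have hfr : ∀ ξ : ℝ, |ξ| ≤ (N : ℝ) ^ 4 → |2 * Real.pi * (l * κ) * ξ| ≤ (N : ℝ) ^ 6 := by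
    intro ξ hξ
    refine freq (l * κ) N ξ ?_ hξ
    rw [abs_mul, abs_of_pos hl0]
    have e : 2 * Real.pi * (l * |κ|) = 2 * Real.pi * |κ| / δ * N := by
      rw [hl]
      ring
    rw [e, sq]
    exact mul_le_mul_of_nonneg_right hN3 hNp.le
  have hfr' : ∀ ξ : ℝ, |ξ| ≤ (N : ℝ) ^ 4 → |2 * Real.pi * (-l) * ξ| ≤ (N : ℝ) ^ 6 := by
    intro ξ hξ
    refine freq (-l) N ξ ?_ hξ
    rw [abs_neg, abs_of_pos hl0]
    have e : 2 * Real.pi * l = 2 * Real.pi / δ * N := by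
      rw [hl]
      ring
    rw [e, sq]
    exact mul_le_mul_of_nonneg_right hN3' hNp.le
  have hx₁g : (M : ℝ) / 2 ≤ x₁ := by
    rw [hx₁]
    linarith
  have herr := two_steps K hKc hKi hK0 hK1 hinv Q (prs y₁ y₂) (prs z₁ z₂) x₁ x₂ y₁ y₂ z₁ z₂ (l * φ) (l * ψ)
    (l * κ) (-l) N (M / Λ' ^ 4) (N / Λ ^ 4) (N / M) hx hy hz₁₂ hNn (by positivity) (by positivity) (by positivity)
    hb0 hb1 hb2 hxN hb3 hb4
    (fun ξ hξ => by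
      rw [hQ]
      exact hzM x₁ x₂ _ hx₁g hx hx₂M (hfr0 ξ hξ))
    (fun ξ hξ => hz y₁ y₂ _ hy₁ hy hy₂ (hfr ξ hξ))
    (fun ξ hξ => hz' z₁ z₂ _ hz₁.ge hz₁₂ hz₂.le (hfr' ξ hξ))
  rw [← hS, ← hT] at herr
  have hAP : ∫ ξ, K ξ * ‖ps (prs y₁ y₂) (2 * Real.pi * (l * κ) * ξ)‖ ^ 2 ≤ cP * N * Λ ^ 2 := by
    have h1 := ps_ms hMS K hKc hKi hK0 hinv (prs y₁ y₂) (2 * Λ) (R₃ * N) (l * κ) (mul_ne_zero hl0.ne' hκ0)
      (fun n hn => by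
        obtain ⟨g1, _, g3⟩ := hPm n hn
        refine ⟨by exact_mod_cast g1, by linarith, ?_⟩
        rw [habs]
        exact hlogy n hn)
    refine h1.trans ?_
    rw [abs_mul, abs_of_pos hl0]
    have h2 : 2 * (R₃ * N) / (l * |κ|) + 1 ≤ 2 * R₃ / |κ| + 1 := by
      have : 2 * (R₃ * N) / (l * |κ|) ≤ 2 * R₃ / |κ| := by
        rw [div_le_div_iff₀ (by positivity) hκa]
        have := mul_le_mul_of_nonneg_left hlN (by positivity : 0 ≤ 2 * R₃ * |κ|)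
        linarith
      linarith
    calc (2 * Λ) ^ 2 * ((prs y₁ y₂).card : ℝ) * (2 * (R₃ * N) / (l * |κ|) + 1) ≤
        (2 * Λ) ^ 2 * (R₃ * N) * (2 * R₃ / |κ| + 1) := by gcongr
      _ = cP * N * Λ ^ 2 := by
        rw [hcP]
        ring
  have hAR : ∫ ξ, K ξ * ‖ps (prs z₁ z₂) (2 * Real.pi * (-l) * ξ)‖ ^ 2 ≤ cR * N * Λ ^ 2 := by
    have h1 := ps_ms hMS K hKc hKi hK0 hinv (prs z₁ z₂) (2 * Λ) (R₃ * N) (-l) (neg_ne_zero.2 hl0.ne')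
      (fun n hn => by
        obtain ⟨g1, g3⟩ := hRm n hn
        refine ⟨by exact_mod_cast g1, by linarith, ?_⟩
        rw [habs]
        exact hlogz n hn)
    refine h1.trans ?_
    rw [abs_neg, abs_of_pos hl0]
    have h2 : 2 * (R₃ * N) / l + 1 ≤ 2 * R₃ + 1 := by
      have : 2 * (R₃ * N) / l ≤ 2 * R₃ := by
        rw [div_le_iff₀ hl0]
        have := mul_le_mul_of_nonneg_left hlN (by positivity : 0 ≤ 2 * R₃)
        linarith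
      linarith
    calc (2 * Λ) ^ 2 * ((prs z₁ z₂).card : ℝ) * (2 * (R₃ * N) / l + 1) ≤
        (2 * Λ) ^ 2 * (R₃ * N) * (2 * R₃ + 1) := by gcongr
      _ = cR * N * Λ ^ 2 := by
        rw [hcR]
        ring
  have hAI : ∫ ξ, K ξ * ‖ii x₁ x₂ (2 * Real.pi * (l * ψ) * ξ)‖ ^ 2 ≤ cI * (M ^ 2 / N) := by
    refine (ii_ms K hKc hKi hK0 kmax hk0 hk x₁ x₂ (l * ψ) hx₁0 hx (mul_ne_zero hl0.ne' hψ0)).trans ?_
    rw [abs_mul, abs_of_pos hl0]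
    have h3 : (2 * x₂) ^ 2 ≤ (2 * (2 * M)) ^ 2 := pow_le_pow_left₀ (by linarith) (by linarith) 2
    calc kmax * (2 * x₂) ^ 2 / (2 * (l * |ψ|)) ≤ kmax * (2 * (2 * M)) ^ 2 / (2 * (N * |ψ|)) := by gcongr
      _ = cI * (M ^ 2 / N) := by
        rw [hcI]
        field_simp
        ring
  have hAY : ∫ ξ, K ξ * ‖ii y₁ y₂ (2 * Real.pi * (l * κ) * ξ)‖ ^ 2 ≤ cY * N := by
    refine (ii_ms K hKc hKi hK0 kmax hk0 hk y₁ y₂ (l * κ) hy₁0 hy (mul_ne_zero hl0.ne' hκ0)).trans ?_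
    rw [abs_mul, abs_of_pos hl0]
    have hy₂0 : 0 < y₂ := by linarith
    have h3 : (2 * y₂) ^ 2 ≤ (2 * (R * N)) ^ 2 := pow_le_pow_left₀ (by linarith) (by linarith) 2
    calc kmax * (2 * y₂) ^ 2 / (2 * (l * |κ|)) ≤ kmax * (2 * (R * N)) ^ 2 / (2 * (N * |κ|)) := by gcongr
      _ = cY * N := by
        rw [hcY]
        field_simp
  have hn1 := num1 M N Λ' Λ h cP cR cI _ _ _ (by linarith) hMN hM1 hΛ'M hh1.le hΛΛ hcP0 hcR0 hcI0 hAP hAR hAI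
  have hn2 := num2 M N Λ' Λ cR cI cY _ _ _ (by linarith) hMN hM1 hΛ'M hΛle hcR0 hcI0 hcY0 hAR hAI hAY
  have herr2 : |S - T| ≤ c * (M * N / Λ') := by
    refine herr.trans ((add_le_add hn1 hn2).trans (le_of_eq ?_))
    rw [hc]
    ring
  -- conclusion
  have h1 : c * 8 * R₃ ≤ Λ' * (ω * (η' * δ)) := by
    rw [div_le_iff₀ (by positivity)] at hM3
    exact hM3
  have hfin := fin5 c R₃ ω η' δ M N Λ' (x₂ - x₁) (y₂ - y₁) hR₃0 hMp.le hNp.le hΛ'0 hδ.le hω0.le hη'.le h1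
    (le_of_eq hx12.symm) (by linarith)
  have hS2 := fin4 R₃ δ (y₂ - y₁) (x₂ - x₁) T S _ hR₃0 hTl herr2 hfin
  have hcard : (G.card : ℝ) * Λ' ≤ 2 * (x₂ - x₁) := by
    have h2 : ‖ps Q 0 - ii x₁ x₂ 0‖ ≤ M / Λ' ^ 4 := by
      rw [hQ]
      refine hzM x₁ x₂ 0 hx₁g hx hx₂M ?_
      rw [abs_zero]
      positivity
    have h3 := card_log Q x₁ x₂ Λ' _ hx hlogq' h2
    have h4 : (M : ℝ) / Λ' ^ 4 ≤ x₂ - x₁ := by
      rw [hx12, div_le_iff₀ (by positivity)]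
      rw [div_le_iff₀ hω0] at hM2
      have h5 : Λ' ≤ Λ' ^ 4 := le_self_pow₀ hM1 (by norm_num)
      calc (M : ℝ) = M * 1 := by ring
        _ ≤ M * (Λ' * ω) := mul_le_mul_of_nonneg_left hM2 hMp.le
        _ ≤ M * (Λ' ^ 4 * ω) := by gcongr
        _ = _ := by ring
    have h6 : (G.card : ℝ) ≤ Q.card := by
      rw [hGQ]
      exact_mod_cast Finset.card_image_le
    have h7 := mul_le_mul_of_nonneg_right h6 hΛ'0.le
    linarith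
  rw [← hΛ]
  exact fin6 E R₃ δ (y₂ - y₁) (x₂ - x₁) G.card Λ' Λ _ hR₃0 hE0 hΛ'0 hΛ0 hδ.le (by linarith) hcard
    (hS2.trans hSu)

end Pool.Agent.D0H87.CP
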